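import Pool.Agent.H63.RQ.Main
import Pool.Agent.H9.RQ.Grow
import Pool.Agent.H9.RQ.Sel

/-!
# RQ: the combinatorial bound, assembled
-/

set_option autoImplicit false

namespace Pool.Agent.H63.RQ

open Pool.Agent.ROT (Sopt)
open Pool.Agent.H9.RQ (UO card_lt_of_sel exists_sep)

theorem card_bound : CardBound fq := by
  classical
  intro m n q hq w I G x y p s P hP hinj
  have hpos : 1 ≤ fq q := Nat.one_le_pow _ _ (Nat.one_le_pow _ _ (by norm_num))
  rcases G.eq_empty_or_nonempty with hG | ⟨l0, hl0⟩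
  · subst hG
    exact Nat.zero_le _
  have hmn : m ≤ n := by
    have := Fintype.card_le_of_embedding (P l0)
    simpa using this
  rcases Nat.eq_zero_or_pos n with hn | hn
  · refine le_trans (Finset.card_le_one.2 fun k hk l hl => hinj k hk l hl ?_) hpos
    subst hn
    ext b
    exact b.elim0
  have key := card_lt_of_sel hmn hq w (v := fun l i => x l * p i + y l * s i) (P := P) hP
    (G := G) (R := 2 ^ (2 * q + 1)) (by positivity) hinj (by
      intro F M hF hM
      obtain ⟨G0, G1, h0, h1, hd, hc0, hc1, o, ho, hab⟩ := exists_sep F x y p s (2 * q) M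
        (by
          calc n * n ≤ 2 ^ q * 2 ^ q := Nat.mul_le_mul hq hq
            _ = 2 ^ (2 * q) := by rw [← pow_add]; congr 1; omega) hn hM
      refine ⟨G0, G1, h0, h1, hd, hc0, hc1, o, ho, fun k hk l hl i j hij => ?_⟩
      have := hab k hk l hl i j hij
      linarith)
  exact key.le

theorem main {m n : ℕ} (h1 : 1 ≤ m) (h2 : m ≤ n)
    (A : Fin m → EuclideanSpace ℝ (Fin 2)) (B : Fin n → EuclideanSpace ℝ (Fin 2)) :
    ((Sopt A B).ncard : ℝ) ≤ (n : ℝ) ^ 4 * Real.exp (4000 * (1 + Real.log m) ^ 4) :=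
  final card_bound h1 h2 A B

end Pool.Agent.H63.RQ
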