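import Pool.Agent.H63.SX.Num

/-!
# RQ: the numerical part

With `q = 2 clog₂ m` (so `m² ≤ 2 ^ q`) and `x = 1 + log m`:
`(1 + m n² + (m n²).choose 2) (2 ^ (2 q + 1)) ^ (27 q³ + 1) ≤ n⁴ exp (4000 x⁴)`.
-/

set_option autoImplicit false

namespace Pool.Agent.H63.RQ

open Pool.Agent.H63.SX (Num_pre Num_clog)

theorem sq_le_pow (m : ℕ) : m ^ 2 ≤ 2 ^ (2 * Nat.clog 2 m) := by
  have h := Nat.le_pow_clog (b := 2) (by norm_num) m
  calc m ^ 2 ≤ (2 ^ Nat.clog 2 m) ^ 2 := Nat.pow_le_pow_left h 2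
    _ = 2 ^ (2 * Nat.clog 2 m) := by rw [← pow_mul, Nat.mul_comm]

theorem num {m n : ℕ} (hm : 1 ≤ m) (hn : m ≤ n) :
    ((1 + m * n ^ 2 + (m * n ^ 2).choose 2 : ℕ) : ℝ) *
      (((2 ^ (2 * (2 * Nat.clog 2 m) + 1)) ^ (27 * (2 * Nat.clog 2 m) ^ 3 + 1) : ℕ) : ℝ) ≤
      (n : ℝ) ^ 4 * Real.exp (4000 * (1 + Real.log m) ^ 4) := by
  have hm' : (1 : ℝ) ≤ m := by exact_mod_cast hm
  have h7 : 0 ≤ Real.log m := Real.log_nonneg hm'
  have hc := Num_clog hm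
  obtain ⟨k, hk⟩ : ∃ k, k = Nat.clog 2 m := ⟨_, rfl⟩
  obtain ⟨x, hx⟩ : ∃ x : ℝ, x = 1 + Real.log m := ⟨_, rfl⟩
  rw [← hk, ← hx] at hc
  rw [← hk, ← hx]
  have hx1 : 1 ≤ x := by linarith
  have hk0 : (0 : ℝ) ≤ k := Nat.cast_nonneg k
  have h1 : (((2 ^ (2 * (2 * k) + 1)) ^ (27 * (2 * k) ^ 3 + 1) : ℕ) : ℝ) =
      Real.exp (((4 * k + 1) * (216 * k ^ 3 + 1) : ℝ) * Real.log 2) := by
    have e0 : ((4 * k + 1) * (216 * k ^ 3 + 1) : ℝ) =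
        (((2 * (2 * k) + 1) * (27 * (2 * k) ^ 3 + 1) : ℕ) : ℝ) := by push_cast; ring
    rw [e0, Real.exp_nat_mul, Real.exp_log (by norm_num), ← pow_mul]
    push_cast
    rfl
  have h2 : ((4 * k + 1) * (216 * k ^ 3 + 1) : ℝ) ≤ 4485 * x ^ 4 := by
    have e1 : (4 * k + 1 : ℝ) ≤ 6.8 * x := by nlinarith
    have e2 : (k : ℝ) ^ 3 ≤ (1.45 * x) ^ 3 := pow_le_pow_left₀ hk0 hc 3
    have e3 : (1 : ℝ) ≤ x ^ 3 := one_le_pow₀ hx1
    have e4 : (216 * k ^ 3 + 1 : ℝ) ≤ 659.51 * x ^ 3 := by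
      have : (1.45 * x) ^ 3 = 3.048625 * x ^ 3 := by ring
      nlinarith
    calc ((4 * k + 1) * (216 * k ^ 3 + 1) : ℝ) ≤ (6.8 * x) * (659.51 * x ^ 3) :=
          mul_le_mul e1 e4 (by positivity) (by positivity)
      _ = 4484.668 * x ^ 4 := by ring
      _ ≤ 4485 * x ^ 4 := by
          have : 0 ≤ x ^ 4 := by positivity
          nlinarith
  have h3 : ((4 * k + 1) * (216 * k ^ 3 + 1) : ℝ) * Real.log 2 ≤ 3110 * x ^ 4 := by
    have e5 := Real.log_two_lt_d9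
    have e6 : 0 < Real.log 2 := Real.log_pos (by norm_num)
    have e7 : 0 ≤ x ^ 4 := by positivity
    calc ((4 * k + 1) * (216 * k ^ 3 + 1) : ℝ) * Real.log 2 ≤ 4485 * x ^ 4 * Real.log 2 :=
          mul_le_mul_of_nonneg_right h2 e6.le
      _ ≤ 4485 * x ^ 4 * 0.6931471808 := mul_le_mul_of_nonneg_left e5.le (by positivity)
      _ ≤ 3110 * x ^ 4 := by nlinarith
  have h4 := Num_pre hm hn
  rw [← hx] at h4
  calc ((1 + m * n ^ 2 + (m * n ^ 2).choose 2 : ℕ) : ℝ) *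
      (((2 ^ (2 * (2 * k) + 1)) ^ (27 * (2 * k) ^ 3 + 1) : ℕ) : ℝ)
      ≤ ((n : ℝ) ^ 4 * Real.exp (2 * x)) * Real.exp (3110 * x ^ 4) := by
        rw [h1]
        exact mul_le_mul h4 (Real.exp_le_exp.2 h3) (Real.exp_pos _).le (by positivity)
    _ = (n : ℝ) ^ 4 * Real.exp (2 * x + 3110 * x ^ 4) := by rw [Real.exp_add]; ring
    _ ≤ (n : ℝ) ^ 4 * Real.exp (4000 * x ^ 4) := by
        apply mul_le_mul_of_nonneg_left _ (by positivity)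
        apply Real.exp_le_exp.2
        have : x ≤ x ^ 4 := by
          calc x = x ^ 1 := (pow_one x).symm
            _ ≤ x ^ 4 := pow_le_pow_right₀ hx1 (by norm_num)
        nlinarith

end Pool.Agent.H63.RQ
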