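import Pool.Agent.H63.RQ.Trans
import Pool.Agent.H63.RQ.Num
import Pool.Agent.H63.SX.NearR
import Pool.Agent.H63.SX.Fin2

/-!
# RQ: the final bound, from the combinatorial bound

`bound`: for the general finite form; `final`: for the Euclidean plane.
-/

set_option autoImplicit false

namespace Pool.Agent.H63.RQ

open Pool.Agent.ROT (cr dt rot pt Sopt)
open Pool.Agent.H63.SX (So near_red bridge)

/-- The function of the combinatorial bound. -/
def fq (q : ℕ) : ℕ := (2 ^ (2 * q + 1)) ^ (27 * q ^ 3 + 1)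

theorem bound (hf : CardBound fq) {α β : Type} [Fintype α] [Fintype β] (A : α → ℝ × ℝ)
    (B : β → ℝ × ℝ) (h : β → ℝ) (h1 : 1 ≤ Fintype.card α)
    (h2 : Fintype.card α ≤ Fintype.card β) :
    ((So A B h).card : ℝ) ≤ (Fintype.card β : ℝ) ^ 4 *
      Real.exp (4000 * (1 + Real.log (Fintype.card α)) ^ 4) := by
  classical
  have key := near_red A B h h1 ((fq (2 * Nat.clog 2 (Fintype.card α)) : ℕ) : ℝ) (by
    intro J hJ
    have := so_bound hf A (fun b : {b // b ∈ J} => B b) (fun b : {b // b ∈ J} => h b)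
      (2 * Nat.clog 2 (Fintype.card α)) (by
        rw [Fintype.card_coe]
        exact hJ.trans (sq_le_pow _))
    exact_mod_cast this)
  exact key.trans (num h1 h2)

theorem final (hf : CardBound fq) {m n : ℕ} (h1 : 1 ≤ m) (h2 : m ≤ n)
    (A : Fin m → EuclideanSpace ℝ (Fin 2)) (B : Fin n → EuclideanSpace ℝ (Fin 2)) :
    ((Sopt A B).ncard : ℝ) ≤ (n : ℝ) ^ 4 * Real.exp (4000 * (1 + Real.log m) ^ 4) := by
  have hb : ((Sopt A B).ncard : ℝ) ≤ ((So (fun i => pt (A i)) (fun j => pt (B j))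
      (fun j => ((B j 0) ^ 2 + (B j 1) ^ 2) / 2)).card : ℝ) := by exact_mod_cast bridge A B
  have h3 := bound hf (fun i => pt (A i)) (fun j => pt (B j))
    (fun j => ((B j 0) ^ 2 + (B j 1) ^ 2) / 2) (by rw [Fintype.card_fin]; exact h1)
    (by rw [Fintype.card_fin, Fintype.card_fin]; exact h2)
  rw [Fintype.card_fin, Fintype.card_fin] at h3
  exact hb.trans h3

end Pool.Agent.H63.RQ
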