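import Pool.Agent.H9.RQ.Defs
import Pool.Agent.H63.SX.Defs

/-!
# RQ: transfer between the two forms of the problem

`So A B h` (minimisation, general finite types, `Pool.Agent.H63.SX.Defs`) and `UO` (maximisation,
`Fin m`, `Fin n`, `Pool.Agent.H9.RQ.Defs`).  `CardBound f` is the combinatorial bound as a
hypothesis; `so_bound` transfers it to `So`.
-/

set_option autoImplicit false

namespace Pool.Agent.H63.RQ

open Pool.Agent.ROT (cr dt rot)
open Pool.Agent.H63.SX (So mem_So Uo)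
open Pool.Agent.H9.RQ (UO)

/-- The combinatorial bound with the function `f`. -/
def CardBound (f : ℕ → ℕ) : Prop :=
  ∀ (m n q : ℕ), n ≤ 2 ^ q → ∀ (w : Fin m → Fin n → ℝ) (I : Type) (G : Finset I) (x y : I → ℝ)
    (p s : Fin n → ℝ) (P : I → (Fin m ↪ Fin n)),
    (∀ l, UO w (fun i => x l * p i + y l * s i) (P l)) →
    (∀ k ∈ G, ∀ l ∈ G, Set.range (P k) = Set.range (P l) → k = l) → G.card ≤ f q

/-- Transport of an embedding along two equivalences. -/
def tr {α β : Type} {m n : ℕ} (e : α ≃ Fin m) (g : β ≃ Fin n) : (α ↪ β) ≃ (Fin m ↪ Fin n) where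
  toFun π := e.symm.toEmbedding.trans (π.trans g.toEmbedding)
  invFun σ := e.toEmbedding.trans (σ.trans g.symm.toEmbedding)
  left_inv π := by ext a; simp
  right_inv σ := by ext a; simp

theorem val_tr {α β : Type} [Fintype α] {m n : ℕ} (e : α ≃ Fin m) (g : β ≃ Fin n)
    (A : α → ℝ × ℝ) (B : β → ℝ × ℝ) (h : β → ℝ) (t : ℝ × ℝ) (π : α ↪ β) :
    Pool.Agent.H9.RQ.val (fun a i => -h (g.symm i) + dt (A (e.symm a)) (B (g.symm i)))
      (fun i => t.1 * (-(B (g.symm i)).1) + t.2 * (-(B (g.symm i)).2)) (tr e g π) =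
      -Pool.Agent.H63.SX.val A B h t π := by
  unfold Pool.Agent.H9.RQ.val Pool.Agent.H63.SX.val
  rw [← Finset.sum_neg_distrib, ← e.sum_comp]
  refine Finset.sum_congr rfl fun a _ => ?_
  simp only [tr, Equiv.coe_fn_mk, Function.Embedding.trans_apply, Equiv.coe_toEmbedding,
    Equiv.symm_apply_apply, dt, Prod.fst_sub, Prod.snd_sub]
  ring

theorem range_sum {α β : Type} [Fintype α] (π σ : α ↪ β) (h : Set.range π = Set.range σ)
    (f : β → ℝ) : ∑ a, f (π a) = ∑ a, f (σ a) := by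
  classical
  have h1 : Finset.univ.map π = Finset.univ.map σ := by
    ext b
    simp only [Finset.mem_map, Finset.mem_univ, true_and]
    exact Set.ext_iff.1 h b
  calc ∑ a, f (π a) = ∑ b ∈ Finset.univ.map π, f b := (Finset.sum_map _ _ _).symm
    _ = ∑ b ∈ Finset.univ.map σ, f b := by rw [h1]
    _ = ∑ a, f (σ a) := Finset.sum_map _ _ _

theorem uo_unique {α β : Type} [Fintype α] (A : α → ℝ × ℝ) (B : β → ℝ × ℝ) (h : β → ℝ)
    {t t' : ℝ × ℝ} {π σ : α ↪ β} (hπ : Uo A B h t π) (hσ : Uo A B h t' σ)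
    (hr : Set.range π = Set.range σ) : π = σ := by
  by_contra hne
  have h1 := hπ σ (Ne.symm hne)
  have h2 := hσ π hne
  have key : ∀ (s : ℝ × ℝ) (τ : α ↪ β), Pool.Agent.H63.SX.val A B h s τ =
      (∑ a, (h (τ a) - dt (A a) (B (τ a)))) + ∑ a, dt s (B (τ a)) := by
    intro s τ
    unfold Pool.Agent.H63.SX.val
    rw [← Finset.sum_add_distrib]
    refine Finset.sum_congr rfl fun a _ => ?_
    simp only [dt, Prod.fst_sub, Prod.snd_sub]
    ring
  rw [key, key] at h1 h2
  rw [range_sum π σ hr (fun b => dt t (B b))] at h1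
  rw [range_sum π σ hr (fun b => dt t' (B b))] at h2
  linarith

theorem so_bound {f : ℕ → ℕ} (hf : CardBound f) {α β : Type} [Fintype α] [Fintype β]
    (A : α → ℝ × ℝ) (B : β → ℝ × ℝ) (h : β → ℝ) (q : ℕ) (hq : Fintype.card β ≤ 2 ^ q) :
    (So A B h).card ≤ f q := by
  classical
  let e := Fintype.equivFin α
  let g := Fintype.equivFin β
  have hch : ∀ π : {π // π ∈ So A B h}, ∃ t : ℝ × ℝ, Uo A B h t π.1 := fun π => mem_So.1 π.2
  choose t ht using hch
  have key := hf (Fintype.card α) (Fintype.card β) q hq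
    (fun a i => -h (g.symm i) + dt (A (e.symm a)) (B (g.symm i))) {π // π ∈ So A B h}
    Finset.univ (fun π => (t π).1) (fun π => (t π).2) (fun i => -(B (g.symm i)).1)
    (fun i => -(B (g.symm i)).2) (fun π => tr e g π.1) ?_ ?_
  · rw [Finset.card_univ, Fintype.card_coe] at key
    exact key
  · intro π σ hσ
    obtain ⟨τ, rfl⟩ := (tr e g).surjective σ
    have hne : τ ≠ π.1 := fun h' => hσ (by rw [h'])
    rw [val_tr, val_tr]
    have := ht π τ hne
    linarith
  · intro π _ σ _ hr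
    apply Subtype.ext
    refine uo_unique A B h (ht π) (ht σ) ?_
    ext b
    constructor
    · rintro ⟨a, ha⟩
      have h1 : g b ∈ Set.range (tr e g π.1) := ⟨e a, by simp [tr, ha]⟩
      rw [hr] at h1
      obtain ⟨c, hc⟩ := h1
      exact ⟨e.symm c, g.injective (by simpa [tr] using hc)⟩
    · rintro ⟨a, ha⟩
      have h1 : g b ∈ Set.range (tr e g σ.1) := ⟨e a, by simp [tr, ha]⟩
      rw [← hr] at h1
      obtain ⟨c, hc⟩ := h1
      exact ⟨e.symm c, g.injective (by simpa [tr] using hc)⟩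

end Pool.Agent.H63.RQ
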